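import Pool.Agent.Helper93.LCH.Stmts
import Pool.Agent.Helper93.LCH.Basic3

/-!
Row FRE of the project LCH (MP_b555a2_al, ChainCriterion, leader helper93): evaluation of
expressions in a ring of fractions.
-/

namespace LCH55

open LCH

universe u v

variable {K : Type u} [Field K] {G : Type v} [Group G]

/-- `Ring.inverse` is computed componentwise for units. -/
theorem inverse_apply {L : Subgroup G} {x : AlgJ K L}
    (hx : IsUnit x) (i : {s : Sit G // L ≤ s.M}) : Ring.inverse x i = Ring.inverse (x i) := by
  have hxi : IsUnit (x i) := Pi.isUnit_iff.1 hx i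
  have h1 : x i * Ring.inverse x i = 1 := by
    have h := congrFun (Ring.mul_inverse_cancel x hx) i
    exact h
  have h2 : Ring.inverse (x i) * x i = 1 := Ring.inverse_mul_cancel (x i) hxi
  calc Ring.inverse x i = (Ring.inverse (x i) * x i) * Ring.inverse x i := by rw [h2, one_mul]
    _ = Ring.inverse (x i) * (x i * Ring.inverse x i) := by rw [mul_assoc]
    _ = Ring.inverse (x i) := by rw [h1, mul_one]

theorem st_FRE (hFRC : ST_FRC.{max u v}) (hSPH : ST_SPH.{u, v}) : ST_FRE.{u, v} := by
  intro K _ G _ L S hVC hOre hmono e he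
  have hunit : ∀ x ∈ S, x ≠ 0 → IsUnit x := by
    intro x hx hx0
    exact Pi.isUnit_iff.2 (fun s => hSPH K G s.1 (x s) (hVC x hx hx0 s))
  by_cases hne : Nonempty {s : Sit G // L ≤ s.M}
  swap
  · left
    intro s hs
    exact absurd ⟨⟨s, hs⟩⟩ hne
  obtain ⟨s0⟩ := hne
  haveI : Nontrivial (AlgJ K L) := by
    refine ⟨⟨1, 0, ?_⟩⟩
    intro h
    have h1 : (1 : Module.End K (s0.1.V K)) = 0 := congrFun h s0
    exact one_ne_zero h1
  obtain ⟨Q, hQ, hSQ, hinv⟩ := hFRC (AlgJ K L) S hunit hOre
  -- elements of `Q` are zero or units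
  have hQu : ∀ x ∈ Q, x = 0 ∨ (IsUnit x ∧ ∀ s, VC s.1 (x s)) := by
    intro x hx
    obtain ⟨a, ha, b, hb, hb0, hba⟩ := (hQ x).1 hx
    have hbu := hunit b hb hb0
    by_cases ha0 : a = 0
    · left
      have h1 : Ring.inverse b * (b * x) = 0 := by rw [hba, ha0, mul_zero]
      rw [← mul_assoc, Ring.inverse_mul_cancel b hbu, one_mul] at h1
      exact h1
    · right
      have hau := hunit a ha ha0
      have hx' : x = Ring.inverse b * a := by
        rw [← hba, ← mul_assoc, Ring.inverse_mul_cancel b hbu, one_mul]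
      refine ⟨?_, ?_⟩
      · rw [hx']
        refine IsUnit.mul ?_ hau
        exact ⟨⟨Ring.inverse b, b, Ring.inverse_mul_cancel b hbu,
          Ring.mul_inverse_cancel b hbu⟩, rfl⟩
      · intro s
        have h2 : x s = Ring.inverse (b s) * a s := by
          rw [hx']
          change Ring.inverse b s * a s = _
          rw [inverse_apply hbu s]
        rw [h2]
        exact ((hVC b hb hb0 s).inverse (Pi.isUnit_iff.1 hbu s)).mul (hVC a ha ha0 s)
  have hmem : ∀ e : Ex K G, (∀ g ∈ e.supp, g ∈ L) → e.evJ L ∈ Q := by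
    intro e
    induction e with
    | mono c g =>
      intro h
      exact hSQ (hmono c g (h g rfl))
    | add a b iha ihb =>
      intro h
      exact Q.add_mem (iha (fun g hg => h g (Or.inl hg))) (ihb (fun g hg => h g (Or.inr hg)))
    | mul a b iha ihb =>
      intro h
      exact Q.mul_mem (iha (fun g hg => h g (Or.inl hg))) (ihb (fun g hg => h g (Or.inr hg)))
    | inv a iha =>
      intro h
      have ha := iha h
      have hi := hinv _ ha
      have h3 : (Ex.inv a).evJ L = Ring.inverse (a.evJ L) := by
        funext s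
        change Ring.inverse (a.ev s.1) = Ring.inverse (a.evJ L) s
        rcases hQu _ ha with h0 | ⟨hu, _⟩
        · have h4 : a.ev s.1 = 0 := congrFun h0 s
          rw [h0, h4, Ring.inverse_zero, Ring.inverse_zero]
          rfl
        · rw [inverse_apply hu s]
          rfl
      rw [h3]
      exact hi
  rcases hQu _ (hmem e he) with h0 | ⟨_, hv⟩
  · left
    intro s hs
    exact congrFun h0 ⟨s, hs⟩
  · right
    intro s hs
    exact hv ⟨s, hs⟩

end LCH55
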